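import Pool.Agent.P8H57.CA.Main

/-!
# Group rings of groups with commensurating actions

Let `Γ` be a group such that for every finitely generated subgroup `H` and every `c ≠ 1` in `H` there
are an action of `H` on a set `X`, a subset `M` and a point `p` such that

* for every `g ∈ H` which commutes with `c`, only finitely many `y` are in `M` while `g y` is not in
  `M` or the other way round,
* `c` skewers `p`: `c ^ n p` is in `M` and `c ^ (-n) p` is not in `M` for all large `n`.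

This holds for all groups which act freely on a CAT(0) cube complex, possibly of infinite dimension
and not locally finite: after cubical subdivision `X` is the set of halfspaces, `M` the set of the
halfspaces which contain a given vertex, and `p` a halfspace of a hyperplane crossed by an axis of
`c`. So it holds for all diagram groups and for Thompson's group `F`; it also holds for all
torsion-free hyperbolic groups (`X` the group, `M` a half of the centraliser of `c`).

We prove three statements on `K_0` of group rings of `Γ` over commutative rings and on `K_1(ℤΓ)`.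
-/

set_option autoImplicit false

namespace Pool.Agent.Results.MP_16fe43_al.CommensuratingActions

open Pool.Agent.H23R2.Ch Pool.Agent.P8H57.CA

universe u v w x y z

/-- every `c ≠ 1` of every finitely generated subgroup skewers a point in a commensurating action of
its centraliser -/
def Skewering (Γ : Type u) [Group Γ] : Prop :=
  ∀ H : Subgroup Γ, H.FG → ∀ c : H, c ≠ 1 →
    ∃ (X : Type x) (_ : MulAction H X) (M : Set X) (p : X),
      (∀ g : H, g * c = c * g → {y : X | ¬ (y ∈ M ↔ g • y ∈ M)}.Finite) ∧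
      ∃ N : ℕ, ∀ n : ℕ, N ≤ n → c ^ n • p ∈ M ∧ (c⁻¹) ^ n • p ∉ M

/-- all cycles of positive even dimension over `k[Γ]` vanish on idempotent matrices, up to a binomial
coefficient -/
def EvenCycles (Γ : Type u) [Group Γ] : Prop :=
  ∀ (k : Type v) [CommRing k] (d : Type w) [Fintype d] [DecidableEq d]
    (e : Matrix d d (MonoidAlgebra k Γ)), e * e = e →
  ∀ (M : Type y) [AddCommGroup M] [Module k M],
    (∃ p : ℕ, p.Prime ∧ ∀ x : M, (∀ m : ℕ, ∃ y : M, p ^ m • y = x) → x = 0) →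
  ∀ (Ω : Type z) [Ring Ω] [Algebra k Ω] (𝒜 : ℕ → Submodule k Ω) [GradedAlgebra 𝒜]
    (δ : Ω →ₗ[k] Ω) (T : Ω →ₗ[k] M) (n : ℕ), 1 ≤ n → IsCycle (2 * n) 𝒜 δ T →
  ∀ (ρ : MonoidAlgebra k Γ →ₐ[k] Ω), (∀ a, ρ a ∈ 𝒜 0) →
    (Nat.centralBinom n) • T ((e.map ρ) * ((e.map ρ).map δ) ^ (2 * n)).trace = 0

/-- all cycles of odd dimension over `ℤ[Γ]` have the same value on an invertible matrix and on an
element of the group -/
def OddCycles (Γ : Type u) [Group Γ] : Prop :=
  ∀ (r : Type w) [Fintype r] [DecidableEq r] (u v : Matrix r r (MonoidAlgebra ℤ Γ)),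
    u * v = 1 → v * u = 1 → ∃ γ : Γ, ∀ (M : Type y) [AddCommGroup M],
      (∀ x : M, x ≠ 0 → {p : ℕ | p.Prime ∧ ∃ y : M, p • y = x}.Finite) →
    ∀ (Ω : Type z) [Ring Ω] (𝒜 : ℕ → Submodule ℤ Ω) [GradedAlgebra 𝒜]
      (δ : Ω →ₗ[ℤ] Ω) (T : Ω →ₗ[ℤ] M) (n : ℕ), IsCycle (2 * n + 1) 𝒜 δ T →
    ∀ (ρ : MonoidAlgebra ℤ Γ →ₐ[ℤ] Ω), (∀ a, ρ a ∈ 𝒜 0) →
      T (v.map ρ * (u.map ρ).map δ * ((v.map ρ).map δ * (u.map ρ).map δ) ^ n).trace =
        T (ρ (MonoidAlgebra.single γ⁻¹ 1) * δ (ρ (MonoidAlgebra.single γ 1)) *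
          (δ (ρ (MonoidAlgebra.single γ⁻¹ 1)) * δ (ρ (MonoidAlgebra.single γ 1))) ^ n)

/-- determinants in finite-dimensional representations and values of Hochschild `1`-cocycles (the
latter up to divisible torsion) of invertible matrices over `ℤ[Γ]` are those of elements `± γ` -/
def DetDennis (Γ : Type u) [Group Γ] : Prop :=
  ∀ (n : ℕ) (A : (Matrix (Fin n) (Fin n) (MonoidAlgebra ℤ Γ))ˣ),
  ∃ ε : ℤ, (ε = 1 ∨ ε = -1) ∧ ∃ γ : Γ,
    (∀ (L : Type w) [Field L] (d : ℕ) (σ : Γ →* GL (Fin d) L),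
      (Matrix.of fun x y : Fin n × Fin d =>
        (A.val x.1 y.1).coeff.sum fun g a => (a : L) * (σ g).val x.2 y.2).det =
          (ε : L) ^ d * (σ γ).val.det) ∧
    ∃ k : ℕ, 0 < k ∧ ∀ (M : Type v) [AddCommGroup M] (f : Γ → Γ → M),
      (∀ x y z : Γ, f (x * y) z - f x (y * z) + f (z * x) y = 0) →
      k • ((∑ i, ∑ j, ((A⁻¹).val i j).coeff.sum fun g b =>
          (A.val j i).coeff.sum fun h a => (b * a) • f g h) - f γ⁻¹ γ) = 0 ∧
      ∀ m : ℕ, 0 < m → ∃ y : M,
        (∑ i, ∑ j, ((A⁻¹).val i j).coeff.sum fun g b =>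
          (A.val j i).coeff.sum fun h a => (b * a) • f g h) - f γ⁻¹ γ = m • y

theorem result {Γ : Type u} [Group Γ] (hΓ : Skewering.{u, x} Γ) :
    EvenCycles.{u, v, w, y, z} Γ ∧ OddCycles.{u, w, y, z} Γ ∧
    ((∀ H : Subgroup Γ, H.FG → {l : ℕ | l.Prime ∧ ∀ x y : H, x ^ l = y ^ l → x = y}.Infinite) →
      DetDennis.{u, v, w} Γ) := by
  have hCa : CaF Γ := by
    intro H hH c hc
    obtain ⟨X, _, M, p, h1, h2⟩ := hΓ H hH c hc
    obtain ⟨f, hf, hfc⟩ := exists_add M p h1 h2
    exact ⟨f, fun x y hx hy => hf x y hx hy, hfc⟩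
  refine ⟨?_, ?_, ?_⟩
  · intro k _ d _ _ e he M _ _ hM Ω _ _ 𝒜 _ δ T n hn h ρ hρ
    exact k0 hCa e he hM 𝒜 δ T hn h ρ hρ
  · intro r _ _ u v huv hvu
    exact k1 hCa u v huv hvu
  · intro hu n A
    exact dt hCa hu A

end Pool.Agent.Results.MP_16fe43_al.CommensuratingActions
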