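import Pool.Agent.P8H36.PP.Mon

/-!
# Invertible matrices over integral group rings of groups of piecewise projective homeomorphisms

Monod's groups of piecewise projective homeomorphisms of the line with coefficients in the ring of
integers of a real number field (non-amenable without free subgroups, for example for `ℤ[√2]`) are
torsion-free.  We prove that no class of the Whitehead group of such a group is detected by
finite-dimensional representations over fields, or by the Dennis trace with values in the
Hochschild homology `HH₁(ℤΓ)` modulo its divisible torsion: for every invertible matrix `A` over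
`ℤΓ` there are `γ ∈ Γ` and a sign `ε` such that `A` and `ε γ` have the same determinants in all
representations and the same Dennis trace, up to torsion which is divisible by all positive
integers.  The theorem holds for all groups such that every element `≠ 1` is detected by an action
by piecewise projective homeomorphisms over a ring whose additive group is residually infinite
cyclic, by an action by piecewise affine homeomorphisms (arbitrary real coefficients) trivial near
`-∞`, or by a homomorphism to a torsion-free group in which the centralisers of all elements `≠ 1`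
are cyclic (for example a torsion-free hyperbolic group).

The engine for groups with conditions on centralisers and roots is `Pool.Agent.Y72` (starting
files); the new part is the analysis of the first germ of piecewise projective homeomorphisms.
-/

set_option autoImplicit false

namespace Pool.Agent.Results.MP_16fe43_al.PiecewiseProjective

open Pool.Agent.P8H36.PP

universe u v w

/-- the conclusion for one invertible matrix `A`: there are a sign and an element `γ` with the same
determinants and the same Dennis trace, up to divisible torsion -/
def Undetected {Γ : Type u} [Group Γ] {n : ℕ}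
    (A : (Matrix (Fin n) (Fin n) (MonoidAlgebra ℤ Γ))ˣ) : Prop :=
  ∃ ε : ℤ, (ε = 1 ∨ ε = -1) ∧ ∃ γ : Γ,
    (∀ (L : Type w) [Field L] (d : ℕ) (σ : Γ →* GL (Fin d) L),
      (Matrix.of fun x y : Fin n × Fin d =>
        (A.val x.1 y.1).coeff.sum fun g a => (a : L) * (σ g).val x.2 y.2).det =
          (ε : L) ^ d * (σ γ).val.det) ∧
    ∃ k : ℕ, 0 < k ∧ ∀ (M : Type v) [AddCommGroup M] (f : Γ → Γ → M),
      (∀ x y z : Γ, f (x * y) z - f x (y * z) + f (z * x) y = 0) →
      k • ((∑ i, ∑ j, ((A⁻¹).val i j).coeff.sum fun g b =>
          (A.val j i).coeff.sum fun h a => (b * a) • f g h) - f γ⁻¹ γ) = 0 ∧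
      ∀ m : ℕ, 0 < m → ∃ y : M,
        (∑ i, ∑ j, ((A⁻¹).val i j).coeff.sum fun g b =>
          (A.val j i).coeff.sum fun h a => (b * a) • f g h) - f γ⁻¹ γ = m • y

theorem result :
    (∀ (Γ : Type u) [Group Γ], Detected Γ → ∀ (n : ℕ)
      (A : (Matrix (Fin n) (Fin n) (MonoidAlgebra ℤ Γ))ˣ), Undetected.{u, v, w} A) ∧
    (∀ (Γ : Type u) [Group Γ] (ρ : Γ →* (ℝ ≃o ℝ)) (R : Subring ℝ), Function.Injective ρ →
      Module.Free ℤ R → (∀ x, FinPieces (Frl R) (ρ x)) → Detected Γ) ∧
    ∀ (Γ : Type u) [Group Γ] (ρ : Γ →* (ℝ ≃o ℝ)), Function.Injective ρ →
      (∀ x, FinPieces Aff (ρ x) ∧ ∃ m : ℝ, ∀ z, z < m → ρ x z = z) → Detected Γ := by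
  refine ⟨fun Γ _ h n A => pp_main h A, ?_, ?_⟩
  · intro Γ _ ρ R hρ hR h g hg
    exact Or.inl ⟨ρ, fun hc => hg (hρ (by rw [hc, map_one])), R, resid_of_free R,
      fun x => (h x).piecewise⟩
  · intro Γ _ ρ hρ h g hg
    exact Or.inr (Or.inl ⟨ρ, fun hc => hg (hρ (by rw [hc, map_one])),
      fun x => ⟨(h x).1.piecewise, (h x).2⟩⟩)

end Pool.Agent.Results.MP_16fe43_al.PiecewiseProjective
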