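import Pool.Agent.P8H36.PP.Cyc

/-!
# Cycles over group rings of groups of piecewise projective homeomorphisms

Let `R` be a subring of `ℝ` (for example `R = ℝ`) and `Γ` a group of increasing homeomorphisms of
the real line which are piecewise fractional linear, each with finitely many matrices, with
coefficients in `R` and determinants invertible in `R`: for example the finitely presented groups of
Lodha and Moore (non-amenable, without free subgroups), all groups of Monod, all groups of piecewise
linear homeomorphisms of the line.  We prove that cycles of positive dimension do not detect the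
reduced `K_0` of group rings of `Γ` over commutative rings nor the Whitehead group of `Γ`:

* for every idempotent matrix `e` over `k[Γ]`, `k` a commutative ring, there is a finite set `B` of
  primes which are invertible in `R` such that every cycle of positive even dimension over `k[Γ]`,
  with values in a `k`-module which is `p`-adically separated for one prime `p ∉ B`, vanishes on `e`
  (up to a central binomial coefficient);
* for every invertible matrix `u` over `ℤ[Γ]` there is `γ ∈ Γ` such that all cycles of odd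
  dimension, with values in abelian groups whose non-zero elements are divisible by finitely many
  primes only, take the same value on `u` and on `γ`.

The general theorems on cycles are in the starting files `H290R4`, `H23R2`; the new part is the
following: in a finitely generated group of this kind `l`-th roots are unique for all `l > 0`, and
no element `≠ 1` has roots of all orders `p ^ k`, for all primes `p` outside a finite set of primes
which are invertible in `R`.
-/

set_option autoImplicit false

namespace Pool.Agent.Results.MP_16fe43_al.PiecewiseProjectiveCycles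

open Pool.Agent.P8H36.PP Pool.Agent.H23R2.Ch

universe u v w x y

/-- all cycles of positive even dimension over `k[Γ]`, with values in a module which is `p`-adically
separated for one prime `p` outside a finite set of primes invertible in `R`, vanish on an idempotent
matrix, up to a binomial coefficient -/
def EvenCycles (Γ : Type u) [Group Γ] (R : Subring ℝ) : Prop :=
  ∀ (k : Type v) [CommRing k] (d : Type w) [Fintype d] [DecidableEq d]
    (e : Matrix d d (MonoidAlgebra k Γ)), e * e = e →
  ∃ B : Set ℕ, B.Finite ∧ (∀ p ∈ B, (p : ℝ)⁻¹ ∈ R) ∧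
  ∀ (M : Type x) [AddCommGroup M] [Module k M],
    (∃ p : ℕ, p.Prime ∧ p ∉ B ∧ ∀ x : M, (∀ m : ℕ, ∃ y : M, p ^ m • y = x) → x = 0) →
  ∀ (Ω : Type y) [Ring Ω] [Algebra k Ω] (𝒜 : ℕ → Submodule k Ω) [GradedAlgebra 𝒜]
    (δ : Ω →ₗ[k] Ω) (T : Ω →ₗ[k] M) (n : ℕ), 1 ≤ n → IsCycle (2 * n) 𝒜 δ T →
  ∀ (ρ : MonoidAlgebra k Γ →ₐ[k] Ω), (∀ a, ρ a ∈ 𝒜 0) →
    (Nat.centralBinom n) • T ((e.map ρ) * ((e.map ρ).map δ) ^ (2 * n)).trace = 0

/-- all cycles of odd dimension over `ℤ[Γ]` have the same value on an invertible matrix and on an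
element of the group -/
def OddCycles (Γ : Type u) [Group Γ] : Prop :=
  ∀ (r : Type w) [Fintype r] [DecidableEq r] (u v : Matrix r r (MonoidAlgebra ℤ Γ)),
    u * v = 1 → v * u = 1 → ∃ γ : Γ, ∀ (M : Type x) [AddCommGroup M],
      (∀ x : M, x ≠ 0 → {p : ℕ | p.Prime ∧ ∃ y : M, p • y = x}.Finite) →
    ∀ (Ω : Type y) [Ring Ω] (𝒜 : ℕ → Submodule ℤ Ω) [GradedAlgebra 𝒜]
      (δ : Ω →ₗ[ℤ] Ω) (T : Ω →ₗ[ℤ] M) (n : ℕ), IsCycle (2 * n + 1) 𝒜 δ T →
    ∀ (ρ : MonoidAlgebra ℤ Γ →ₐ[ℤ] Ω), (∀ a, ρ a ∈ 𝒜 0) →
      T (v.map ρ * (u.map ρ).map δ * ((v.map ρ).map δ * (u.map ρ).map δ) ^ n).trace =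
        T (ρ (MonoidAlgebra.single γ⁻¹ 1) * δ (ρ (MonoidAlgebra.single γ 1)) *
          (δ (ρ (MonoidAlgebra.single γ⁻¹ 1)) * δ (ρ (MonoidAlgebra.single γ 1))) ^ n)

/-- `ρ` is a faithful action of `Γ` by piecewise projective homeomorphisms of the line with
coefficients in `R`. -/
theorem result {Γ : Type u} [Group Γ] (ρ : Γ →* (ℝ ≃o ℝ)) (hinj : Function.Injective ρ)
    (R : Subring ℝ) (hρ : ∀ x, Piecewise (Frl R) (ρ x)) :
    EvenCycles.{u, v, w, x, y} Γ R ∧ OddCycles.{u, w, x, y} Γ := by
  refine ⟨?_, ?_⟩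
  · intro k _ d _ _ e he
    obtain ⟨B, h1, h2, h3⟩ := bad_sub ρ hinj hρ _ (Pool.Agent.H290R4.ChernZ.supp_fg e)
    refine ⟨B, h1, h2, ?_⟩
    rintro M _ _ ⟨p, hp, hpB, hs⟩ Ω _ _ 𝒜 _ δ T n hn hc σ hσ
    exact k0 e he hp (h3 p hp hpB) hs 𝒜 δ T hn hc σ hσ
  · intro r _ _ u v huv hvu
    obtain ⟨B, h1, h2, h3⟩ := bad_sub ρ hinj hρ _ (Pool.Agent.H23R2.Odd.supGrp_fg u v)
    refine k1 u v huv hvu (h1.subset ?_)
    rintro p ⟨hp, hpN⟩
    by_contra hpB
    exact hpN (h3 p hp hpB)

end Pool.Agent.Results.MP_16fe43_al.PiecewiseProjectiveCycles
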