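import Pool.Agent.P8H27.TC.ThmB

/-!
# Lower K-theory of torsion-free groups: reduction to groups with two conjugacy classes and to
# two-generated groups

The functors `Wh`, `K̃₀(ℤ–)` and `K_n(ℤ–)`, `n ≤ -1`, commute with directed unions (`IsFinitary`), and by
the theorem of Waldhausen they are injective on the inclusion of a group `G` into an HNN extension of `G`
along free groups of finite rank (`Waldhausen`), as the group rings of free groups are regular coherent
and the three functors vanish on free groups. So the theorem below applies to them with the class of the
free groups of finite rank, and with `𝒳` the class of all groups: Q1 holds for all torsion-free groups if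
it holds for the countable torsion-free groups which have exactly two conjugacy classes (these are simple
and divisible) and in which every isomorphism between free subgroups of finite rank is inner; and also if
it holds for the two-generated torsion-free groups. With `𝒜` the class of the trivial and the infinite
cyclic groups the theorem applies to the class `𝒳` of sofic groups.

The proof. The construction of Higman, Neumann and Neumann is a sequence of HNN extensions along groups
in `𝒜`, and by `Waldhausen` no class of `F` dies in it. The two-generated group is an HNN extension, along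
a free group of rank `n + 1`, of the free product of `G = ⟨g_1, …, g_n⟩` with a free group `⟨a, b⟩`: the
stable letter conjugates `b^(-i) a b^i` to `a^(-i) b a^i g_i`, `g_0 = 1`.

All definitions are in `Pool.Agent.P8H27.TC.Defs`. Torsion-freeness of HNN extensions and the direct limit
are from the library `Pool.Agent.Helper495.E97`.
-/

set_option autoImplicit false

open Pool.Agent.P8H27.TC

universe u

/-- Let `F` be a functor from groups to abelian groups which commutes with directed unions of finitely
generated subgroups.

(A) Let `𝒜` be a class of finitely generated groups, closed under isomorphisms, which contains the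
trivial and the infinite cyclic groups, such that `F` is injective on the inclusion of a torsion-free
group in its HNN extensions with associated subgroups in `𝒜`. Let `𝒳` be a class of groups which is
closed under isomorphisms, subgroups, such HNN extensions and increasing unions. Then every countable
torsion-free group `G` in `𝒳` has an embedding `θ` into a countable torsion-free group `Q` in `𝒳` with
`F(θ)` injective, where `Q` has exactly two conjugacy classes, is simple and divisible, and every
isomorphism between subgroups of `Q` in `𝒜` is the restriction of an inner automorphism. So `F`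
vanishes on all torsion-free groups in `𝒳` if and only if it vanishes on the groups `Q` of this kind.

(B) For the class `𝒜` of the free groups of finite rank, every finitely generated torsion-free group `G`
in `𝒳` has an embedding `θ` into a two-generated torsion-free group in `𝒳` with `F(θ)` injective. So `F`
vanishes on all torsion-free groups in `𝒳` if and only if it vanishes on the two-generated ones.

(C) The class of the free groups of finite rank satisfies the conditions on `𝒜` in (A). -/
theorem Pool.Agent.Results.MP_16fe43_al.TwoConjugacyClasses.result
    (F : GroupFunctor.{u}) (hF : IsFinitary F) :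
    (∀ 𝒜 𝒳 : (G : Type) → [Group G] → Prop, IsAdmissible 𝒜 → Waldhausen F 𝒜 → IsClosed 𝒜 𝒳 →
      (∀ (G : Type) [Group G], 𝒳 G → TorsionFree G → Countable G →
        ∃ (Q : Type) (_ : Group Q) (θ : G →* Q), 𝒳 Q ∧ TorsionFree Q ∧ IsUltra 𝒜 Q ∧
          Function.Injective θ ∧ Function.Injective (F.map θ)) ∧
      ((Vanishes F 𝒳 fun _ [Group _] => True) ↔ Vanishes F 𝒳 fun Q [Group Q] => IsUltra 𝒜 Q)) ∧
    (∀ 𝒳 : (G : Type) → [Group G] → Prop, Waldhausen F FreeOfFiniteRank →
      IsClosed FreeOfFiniteRank 𝒳 →
      (∀ (G : Type) [Group G], 𝒳 G → TorsionFree G → Group.FG G →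
        ∃ (Q : Type) (_ : Group Q) (θ : G →* Q), 𝒳 Q ∧ TorsionFree Q ∧ TwoGenerated Q ∧
          Function.Injective θ ∧ Function.Injective (F.map θ)) ∧
      ((Vanishes F 𝒳 fun _ [Group _] => True) ↔ Vanishes F 𝒳 fun Q [Group Q] => TwoGenerated Q)) ∧
    IsAdmissible FreeOfFiniteRank := by
  refine ⟨fun 𝒜 𝒳 h𝒜 hW h𝒳 => ⟨fun G _ hG htf hc => ?_, fun h G _ hG htf _ x =>
    h G hG htf trivial x, thmA F hF 𝒜 𝒳 h𝒜 hW h𝒳⟩, fun 𝒳 hW h𝒳 => ⟨fun G _ hG htf hfg => ?_,
    fun h G _ hG htf _ x => h G hG htf trivial x, thmB F hF 𝒳 hW h𝒳⟩, isAdmissible_free⟩
  · obtain ⟨Q, hQ, θ, h1, h2, h3, h4, h5⟩ := embA F hF 𝒜 𝒳 h𝒜 hW h𝒳 G hG htf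
    exact ⟨Q, hQ, θ, h1, h2, h3, h4, h5.injective⟩
  · obtain ⟨Q, hQ, θ, h1, h2, h3, h4, h5⟩ := embB F 𝒳 hW h𝒳 G hG htf hfg
    exact ⟨Q, hQ, θ, h1, h2, h3, h4, h5.injective⟩
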